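import Pool.Agent.H55.BQ.Targets

/-!
# Biplanar drawings: counting the pairs of branches by deck transformations (row CN)
-/

set_option autoImplicit false

open Finset Pool.Agent.H55.BP Pool.Agent.H55.BQ

namespace Pool.Agent.H79.BPQ.CN

theorem pf_CN (_hDKU : T_DKU) (hDKD : T_DKD) (hDKE : T_DKE) : T_CN := by
  classical
  intro n T _ U B R rs pu pv lft H1 H2
  set W : Bool × Fin n → Finset (Σ _ : ℕ, T.V × Fin n) := fun i =>
    U.sigma fun u => (B u).filter fun p => (T.par p.1, p.2) = i with hW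
  have hWc : ∀ i, (W i).card =
      ∑ u ∈ U, ((B u).filter fun p => (T.par p.1, p.2) = i).card := fun i =>
    Finset.card_sigma _ _
  set P : Finset (Σ _ : Bool × Fin n, (Σ _ : ℕ, T.V × Fin n) × (Σ _ : ℕ, T.V × Fin n)) :=
    Finset.univ.sigma fun i => (W i).offDiag with hP
  have hPc : P.card = ∑ i : Bool × Fin n,
      (∑ u ∈ U, ((B u).filter fun p => (T.par p.1, p.2) = i).card) *
      ((∑ u ∈ U, ((B u).filter fun p => (T.par p.1, p.2) = i).card) - 1) := by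
    rw [hP, Finset.card_sigma]
    refine Finset.sum_congr rfl fun i _ => ?_
    rw [Finset.offDiag_card, hWc, Nat.mul_sub_one]
  rw [← hPc]
  have hPm : ∀ x ∈ P, x.2.1.1 ∈ U ∧ x.2.1.2 ∈ B x.2.1.1 ∧
      (T.par x.2.1.2.1, x.2.1.2.2) = x.1 ∧ x.2.2.1 ∈ U ∧ x.2.2.2 ∈ B x.2.2.1 ∧
      (T.par x.2.2.2.1, x.2.2.2.2) = x.1 ∧ x.2.1 ≠ x.2.2 := by
    intro x hx
    rw [hP, Finset.mem_sigma, Finset.mem_offDiag, hW, Finset.mem_sigma, Finset.mem_sigma,
      Finset.mem_filter, Finset.mem_filter] at hx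
    obtain ⟨-, ⟨h1, h2, h3⟩, ⟨h4, h5, h6⟩, h7⟩ := hx
    exact ⟨h1, h2, h3, h4, h5, h6, h7⟩
  have hex : ∀ c e : T.V, ∃ g : T.V → T.V, T.par c = T.par e →
      ∃ h : Dk T, h.h = g ∧ h.h c = e := by
    intro c e
    by_cases hce : T.par c = T.par e
    · obtain ⟨h, hh⟩ := hDKE T c e hce
      exact ⟨h.h, fun _ => ⟨h, rfl, hh⟩⟩
    · exact ⟨id, fun h => absurd h hce⟩
  choose Hf hHf using hex
  set Φ : (Σ _ : Bool × Fin n, (Σ _ : ℕ, T.V × Fin n) × (Σ _ : ℕ, T.V × Fin n)) →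
      ℕ × ℕ × (T.V → T.V) := fun x => (x.2.1.1, x.2.2.1, Hf x.2.2.2.1 x.2.1.2.1) with hΦ
  have hΦP : ∀ x ∈ P, ∃ h : Dk T, h.h = (Φ x).2.2 ∧ h.h x.2.2.2.1 = x.2.1.2.1 := by
    intro x hx
    obtain ⟨-, -, h3, -, -, h6, -⟩ := hPm x hx
    refine hHf _ _ ?_
    rw [← h3] at h6
    exact (Prod.ext_iff.1 h6).1
  rw [Finset.card_eq_sum_card_image Φ P]
  set Rt : ℕ × ℕ × (T.V → T.V) → Finset R := fun t =>
    rs.filter fun r => pu r = t.1 ∧ pv r = t.2.1 ∧ lft r t.2.2 with hRt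
  have hle : ∀ t ∈ P.image Φ, (P.filter fun x => Φ x = t).card ≤ (Rt t).card := by
    intro t ht
    obtain ⟨x0, hx0, rfl⟩ := Finset.mem_image.1 ht
    obtain ⟨h, hh, hh1⟩ := hΦP x0 hx0
    obtain ⟨a1, a2, a3, a4, a5, a6, a7⟩ := hPm x0 hx0
    have hne : ¬ (x0.2.1.1 = x0.2.2.1 ∧ h.h = id) := by
      rintro ⟨e1, e2⟩
      apply a7
      rw [e2] at hh1
      have e3 : x0.2.2.2.1 = x0.2.1.2.1 := hh1
      have e4 : x0.2.1.2.2 = x0.2.2.2.2 := by
        rw [← a3] at a6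
        exact (Prod.ext_iff.1 a6).2.symm
      refine Sigma.ext e1 (heq_of_eq ?_)
      exact Prod.ext e3.symm e4
    have h2 := H2 _ a1 _ a4 h hne
    have e1 : {r | r ∈ rs ∧ pu r = x0.2.1.1 ∧ pv r = x0.2.2.1 ∧ lft r h.h} =
        (↑(Rt (Φ x0)) : Set R) := by
      ext r
      rw [hRt, Finset.mem_coe, Finset.mem_filter, Set.mem_ofPred_eq, hh]
    rw [e1, Set.ncard_coe_finset] at h2
    refine le_trans ?_ h2
    have hfin : {p | p ∈ B x0.2.1.1 ∧ ∃ q ∈ B x0.2.2.1, h.h q.1 = p.1 ∧ q.2 = p.2}.Finite :=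
      (B x0.2.1.1).finite_toSet.subset fun p hp => hp.1
    rw [Set.ncard_eq_toFinset_card _ hfin]
    refine Finset.card_le_card_of_injOn (fun x => x.2.1.2) ?_ ?_
    · intro x hx
      rw [Finset.mem_coe, Finset.mem_filter] at hx
      obtain ⟨hx, hxe⟩ := hx
      obtain ⟨b1, b2, b3, b4, b5, b6, b7⟩ := hPm x hx
      obtain ⟨g, hg, hg1⟩ := hΦP x hx
      have c1 : x.2.1.1 = x0.2.1.1 := congrArg (fun z => z.1) hxe
      have c2 : x.2.2.1 = x0.2.2.1 := congrArg (fun z => z.2.1) hxe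
      have c3 : g.h = h.h := by rw [hg, hh, hxe]
      rw [Finset.mem_coe, Set.Finite.mem_toFinset, Set.mem_ofPred_eq]
      refine ⟨c1 ▸ b2, x.2.2.2, c2 ▸ b5, ?_, ?_⟩
      · rw [← c3]
        exact hg1
      · rw [← b3] at b6
        exact (Prod.ext_iff.1 b6).2
    · intro x hx y hy hxy
      rw [Finset.mem_coe, Finset.mem_filter] at hx hy
      obtain ⟨hx, hxe⟩ := hx
      obtain ⟨hy, hye⟩ := hy
      obtain ⟨b1, b2, b3, b4, b5, b6, b7⟩ := hPm x hx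
      obtain ⟨d1, d2, d3, d4, d5, d6, d7⟩ := hPm y hy
      obtain ⟨g, hg, hg1⟩ := hΦP x hx
      obtain ⟨k, hk, hk1⟩ := hΦP y hy
      have hxy' : x.2.1.2 = y.2.1.2 := hxy
      have c1 : x.2.1.1 = y.2.1.1 := congrArg (fun z => z.1) (hxe.trans hye.symm)
      have c2 : x.2.2.1 = y.2.2.1 := congrArg (fun z => z.2.1) (hxe.trans hye.symm)
      have c3 : g.h = k.h := by rw [hg, hk, hxe, hye]
      have c4 : x.1 = y.1 := by rw [← b3, ← d3, hxy']
      have c5 : x.2.2.2.1 = y.2.2.2.1 := by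
        refine (hDKD T g).1.1 ?_
        rw [hg1, hxy', c3, hk1]
      have c6 : x.2.2.2.2 = y.2.2.2.2 := by
        have u1 := (Prod.ext_iff.1 b6).2
        have u2 := (Prod.ext_iff.1 d6).2
        have u3 : x.2.2.2.2 = x.1.2 := u1
        have u4 : y.2.2.2.2 = y.1.2 := u2
        rw [u3, u4, c4]
      refine Sigma.ext c4 (heq_of_eq (Prod.ext ?_ ?_))
      · exact Sigma.ext c1 (heq_of_eq hxy')
      · exact Sigma.ext c2 (heq_of_eq (Prod.ext c5 c6))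
  have hdisj : ∀ t ∈ P.image Φ, ∀ t' ∈ P.image Φ, t ≠ t' → Disjoint (Rt t) (Rt t') := by
    intro t ht t' ht' hne
    obtain ⟨x, hx, rfl⟩ := Finset.mem_image.1 ht
    obtain ⟨y, hy, rfl⟩ := Finset.mem_image.1 ht'
    obtain ⟨g, hg, -⟩ := hΦP x hx
    obtain ⟨k, hk, -⟩ := hΦP y hy
    rw [Finset.disjoint_left]
    intro r hr hr'
    apply hne
    rw [hRt, Finset.mem_filter] at hr hr'
    obtain ⟨r0, r1, r2, r3⟩ := hr
    obtain ⟨-, s1, s2, s3⟩ := hr'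
    rw [← hg] at r3
    rw [← hk] at s3
    have e := H1 r r0 g k r3 s3
    refine Prod.ext (r1.symm.trans s1) (Prod.ext (r2.symm.trans s2) ?_)
    rw [← hg, ← hk, e]
  calc ∑ t ∈ P.image Φ, (P.filter fun x => Φ x = t).card
      ≤ ∑ t ∈ P.image Φ, (Rt t).card := Finset.sum_le_sum hle
    _ = ((P.image Φ).biUnion Rt).card := (Finset.card_biUnion hdisj).symm
    _ ≤ rs.card := Finset.card_le_card
        (Finset.biUnion_subset.2 fun t _ => Finset.filter_subset _ _)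

end Pool.Agent.H79.BPQ.CN
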