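import Pool.Agent.H55.BQ.Targets

/-!
# MP_bacf0e_co, row CVX (board bpq): convexity
-/

set_option autoImplicit false

namespace Pool.Agent.H79.BPQ

open Pool.Agent.H55.BP Pool.Agent.H55.BQ Finset

theorem cnt_mod (α b : ℕ) (hα : 0 < α) :
    ((range b).filter fun a => a % α = b % α).card = b / α := by
  have h := Nat.count_modEq_card b hα b
  rw [Nat.count_eq_card_filter_range, if_neg (lt_irrefl _), add_zero] at h
  exact h

theorem tt_eq (α s : ℕ) (hα : 0 < α) : tt α s = ∑ b ∈ range s, b / α := by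
  unfold tt
  rw [Finset.card_filter, Fintype.sum_prod_type, Finset.sum_comm]
  rw [← Fin.sum_univ_eq_sum_range (fun b => b / α) s]
  refine Finset.sum_congr rfl fun b _ => ?_
  rw [← cnt_mod α b.val hα, Finset.card_filter]
  have h1 : ∑ a : Fin s, (if a < b ∧ a.val % α = b.val % α then 1 else 0) =
      ∑ a ∈ range s, (if a < b.val ∧ a % α = b.val % α then 1 else 0) :=
    Fin.sum_univ_eq_sum_range (fun a => if a < b.val ∧ a % α = b.val % α then 1 else 0) s
  rw [h1]
  have h2 : ∑ a ∈ range b.val, (if a % α = b.val % α then 1 else 0) =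
      ∑ a ∈ range b.val, (if a < b.val ∧ a % α = b.val % α then 1 else 0) := by
    refine Finset.sum_congr rfl fun a ha => ?_
    rw [mem_range] at ha
    simp [ha]
  rw [h2]
  symm
  refine Finset.sum_subset (fun a ha => ?_) fun a _ ha => ?_
  · rw [mem_range] at ha ⊢
    exact ha.trans b.isLt
  · rw [mem_range] at ha
    rw [if_neg fun h => ha h.1]

theorem closed (α : ℕ) (hα : 0 < α) (S : ℕ) :
    (2 * (∑ b ∈ range S, b / α : ℕ) : ℤ) =
      2 * (S / α : ℕ) * S - α * (S / α : ℕ) * ((S / α : ℕ) + 1) := by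
  induction S with
  | zero => simp
  | succ S ih =>
    rw [Finset.sum_range_succ]
    have hd := Nat.div_add_mod S α
    have hm := Nat.mod_lt S hα
    rcases Nat.lt_or_ge (S % α + 1) α with h | h
    · have e : (S + 1) / α = S / α := by
        rw [Nat.div_eq_iff hα, mul_comm (S / α) α]
        omega
      rw [e]
      push_cast at ih ⊢
      linarith
    · have h1 : S + 1 = α * (S / α + 1) := by
        rw [mul_add, mul_one]
        omega
      have e : (S + 1) / α = S / α + 1 := by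
        rw [h1]
        exact Nat.mul_div_cancel_left _ hα
      rw [e]
      have h2 : ((S : ℤ) + 1) = α * ((S / α : ℕ) + 1) := by exact_mod_cast h1
      push_cast at ih h2 ⊢
      linear_combination ih - 2 * h2

theorem pf_CVX : T_CVX := by
  intro I s α k hs hα
  rw [tt_eq α _ hα]
  set S := ∑ i ∈ s, k i with hS
  have h1 := closed α hα S
  have h2 : ∀ i ∈ s, 2 * ((S / α : ℕ) : ℤ) * k i - (S / α : ℕ) * ((S / α : ℕ) + 1) ≤
      ((k i * (k i - 1) : ℕ) : ℤ) := by
    intro i _
    have e : ((k i * (k i - 1) : ℕ) : ℤ) = (k i : ℤ) * (k i - 1) := by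
      rcases Nat.eq_zero_or_pos (k i) with h | h
      · rw [h]
        simp
      · push_cast [Nat.cast_sub h]
        ring
    rw [e]
    have h3 : 0 ≤ ((k i : ℤ) - (S / α : ℕ)) * ((k i : ℤ) - (S / α : ℕ) - 1) := by
      rcases le_or_gt ((k i : ℤ)) ((S / α : ℕ) : ℤ) with h | h
      · exact mul_nonneg_of_nonpos_of_nonpos (by linarith) (by linarith)
      · have h4 : ((S / α : ℕ) : ℤ) + 1 ≤ (k i : ℤ) := h
        exact mul_nonneg (by linarith) (by linarith)
    nlinarith
  have h3 := Finset.sum_le_sum h2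
  rw [Finset.sum_sub_distrib, ← Finset.mul_sum, Finset.sum_const, hs, nsmul_eq_mul] at h3
  have h4 : ((∑ i ∈ s, (k i : ℤ))) = (S : ℤ) := by
    rw [hS]
    push_cast
    rfl
  rw [h4] at h3
  have h5 : ((2 * ∑ b ∈ range S, b / α : ℕ) : ℤ) ≤ ((∑ i ∈ s, k i * (k i - 1) : ℕ) : ℤ) := by
    rw [Nat.cast_mul, Nat.cast_sum (R := ℤ) s]
    have : ((2 : ℕ) : ℤ) * ((∑ b ∈ range S, b / α : ℕ) : ℤ) =
        2 * (S / α : ℕ) * S - α * (S / α : ℕ) * ((S / α : ℕ) + 1) := by exact_mod_cast h1
    rw [this]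
    calc _ = 2 * ((S / α : ℕ) : ℤ) * S - α * ((S / α : ℕ) * ((S / α : ℕ) + 1)) := by ring
      _ ≤ _ := h3
  exact_mod_cast h5

end Pool.Agent.H79.BPQ
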