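import Pool.Agent.H55.BQ.Targets

/-!
# MP_bacf0e_co, row RAD (board bpq): the radius of the discs around the white vertices
-/

set_option autoImplicit false

namespace Pool.Agent.H79.BPQ

open Pool.Agent.H55.BP Pool.Agent.H55.BQ Filter Topology

theorem ev (c : ℝ) (hc : 0 < c) : ∀ᶠ ρ in 𝓝[>] (0 : ℝ), ρ < c :=
  (eventually_lt_nhds hc).filter_mono nhdsWithin_le_nhds

theorem pf_RAD : T_RAD := by
  intro n m G D hG hpt
  have hne : ∀ (j : Fin m) (i : Fin n), D.pt (Sum.inr j) ≠ (i.val : ℂ) := by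
    intro j i h
    rw [← hpt i] at h
    exact Sum.inr_ne_inl (D.pt_inj h)
  have e0 : ∀ᶠ ρ in 𝓝[>] (0 : ℝ), 0 < ρ := self_mem_nhdsWithin
  have e1 := ev (1 / 4) (by norm_num)
  have e2 : ∀ᶠ ρ in 𝓝[>] (0 : ℝ), ∀ (i : Fin n) (j : Fin m),
      ρ < ‖D.pt (Sum.inr j) - (i.val : ℂ)‖ := by
    rw [eventually_all]
    intro i
    rw [eventually_all]
    intro j
    exact ev _ (norm_pos_iff.2 (sub_ne_zero.2 (hne j i)))
  have e3 : ∀ᶠ ρ in 𝓝[>] (0 : ℝ), ∀ (i i' : Fin n) (j : Fin m),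
      G.Adj (Sum.inr j) (Sum.inl i) → i ≠ i' →
      ∀ t ∈ Set.Icc (0 : ℝ) 1, ρ < ‖D.arc (Sum.inr j) (Sum.inl i) t - (i'.val : ℂ)‖ := by
    rw [eventually_all]
    intro i
    rw [eventually_all]
    intro i'
    rw [eventually_all]
    intro j
    by_cases h : G.Adj (Sum.inr j) (Sum.inl i) ∧ i ≠ i'
    · obtain ⟨h1, h2⟩ := h
      have hc : ContinuousOn (fun t => ‖D.arc (Sum.inr j) (Sum.inl i) t - (i'.val : ℂ)‖)
          (Set.Icc 0 1) := ((D.cont _ _ h1).sub continuousOn_const).norm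
      obtain ⟨t₀, ht₀, hmin⟩ := (isCompact_Icc (a := (0 : ℝ)) (b := 1)).exists_isMinOn
        ⟨0, by norm_num, by norm_num⟩ hc
      have hpos : 0 < ‖D.arc (Sum.inr j) (Sum.inl i) t₀ - (i'.val : ℂ)‖ := by
        rw [norm_pos_iff, sub_ne_zero]
        rcases eq_or_lt_of_le ht₀.1 with h3 | h3
        · rw [← h3, D.zero _ _ h1]
          exact hne j i'
        · rcases eq_or_lt_of_le ht₀.2 with h4 | h4
          · rw [h4, D.one _ _ h1, ← hpt i']
            intro h5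
            exact h2 (Sum.inl_injective (D.pt_inj h5))
          · rw [← hpt i']
            exact D.avoid _ _ h1 t₀ ⟨h3, h4⟩ _
      filter_upwards [ev _ hpos] with ρ hρ _ _ t ht
      exact lt_of_lt_of_le hρ (hmin ht)
    · exact Eventually.of_forall fun ρ h1 h2 => absurd ⟨h1, h2⟩ h
  have e4 : ∀ᶠ ρ in 𝓝[>] (0 : ℝ), ∀ x ∈ crossSet G D.arc, ∀ i : Fin n,
      ρ < ‖x.2 - (i.val : ℂ)‖ := by
    rw [eventually_all_finite D.fin]
    rintro x ⟨a, b, c, d, hab, -, -, -, ⟨t, ht, hx⟩, -⟩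
    rw [eventually_all]
    intro i
    refine ev _ ?_
    rw [norm_pos_iff, sub_ne_zero, ← hx, ← hpt i]
    exact D.avoid _ _ hab t ht _
  obtain ⟨ρ, h0, h1, h2, h3, h4⟩ := (e0.and (e1.and (e2.and (e3.and e4)))).exists
  exact ⟨ρ, h0, h1, h2, h3, h4⟩

end Pool.Agent.H79.BPQ
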