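import Pool.Agent.H55.BQ.Targets

/-!
# MP_bacf0e_co, row STY (board bpq): the lower bound for systems
-/

set_option autoImplicit false

namespace Pool.Agent.H79.BPQ

open Pool.Agent.H55.BP Pool.Agent.H55.BQ Finset

/-- the inner labels -/
def inner (n : ℕ) : Finset (Fin n) := univ.filter fun j => 0 < j.val ∧ j.val + 1 < n

theorem card_inner (n : ℕ) : (inner n).card = n - 2 := by
  have h : (inner n).card = (Finset.Ioo 0 (n - 1)).card := by
    refine Finset.card_bij (fun j _ => j.val) (fun j hj => ?_) (fun a _ b _ h => Fin.ext h) ?_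
    · have h1 := (Finset.mem_filter.1 hj).2
      rw [Finset.mem_Ioo]
      omega
    · intro b hb
      rw [Finset.mem_Ioo] at hb
      refine ⟨⟨b, by omega⟩, Finset.mem_filter.2 ⟨Finset.mem_univ _, ?_⟩, rfl⟩
      change 0 < b ∧ b + 1 < n
      omega
  rw [h, Nat.card_Ioo]
  omega

theorem mids_inner {n : ℕ} (T : LT n) {ι : Type} (E : ι → T.V) (S : Finset ι)
    {p : T.V × Fin n} (hp : p ∈ Br T E S) : p.2 ∈ inner n := by
  obtain ⟨a, -, b, -, c, -, x, y, -, -, -, h1, h2⟩ := hp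
  refine Finset.mem_filter.2 ⟨Finset.mem_univ _, ?_⟩
  have h3 : x.val < p.2.val := h1
  have h4 : p.2.val < y.val := h2
  have h5 := y.isLt
  omega

theorem pf_STY (hTRE : T_TRE) (hMSH : T_MSH) (hSPI : T_SPI) (hGLS : T_GLS) (hKC : T_KC)
    (hCN : T_CN) (hCVX : T_CVX) (hBRC : T_BRC) (hDKU : T_DKU) : T_STY := by
  classical
  intro n _ ι _ _ Y hn hrec U
  obtain ⟨T⟩ := hTRE n (by omega)
  obtain ⟨N, hN⟩ := hMSH T Y (by omega)
  have hsp : ∀ e, ∃ κ, Y.Spiral T N e κ := fun e => hSPI T Y N (by omega) hN.fine e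
  choose κ hκ using hsp
  obtain ⟨M₀, hM₀⟩ := hGLS T Y N κ hn hκ
  obtain ⟨M, hM⟩ : ∃ M, M = max M₀ 1 := ⟨_, rfl⟩
  have hM1 : 1 ≤ M := by rw [hM]; exact le_max_right _ _
  have hG := hM₀ M (by rw [hM]; exact le_max_left _ _)
  let E : ι → T.V := fun e => Y.c T N e (κ e + M * N)
  have hBr : ∀ u, (Br T E (Y.legs u)).Finite ∧
      (Br T E (Y.legs u)).ncard = (Y.legs u).card - 2 := by
    intro u
    refine hBRC T E (Y.legs u) Y.wt fun b hb b' hb' hbb => ?_
    have h1 : Y.b b = u := (Finset.mem_filter.1 hb).2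
    have h2 : Y.b b' = u := (Finset.mem_filter.1 hb').2
    exact hG b b' hbb (h1.trans h2.symm)
  let B : ℕ → Finset (T.V × Fin n) := fun u => (hBr u).1.toFinset
  have hB : ∀ u p, p ∈ B u ↔ p ∈ Br T E (Y.legs u) := fun u p => (hBr u).1.mem_toFinset
  have hBc : ∀ u, (B u).card = (Y.legs u).card - 2 := by
    intro u
    rw [← (hBr u).2, Set.ncard_eq_toFinset_card _ (hBr u).1]
  have hcn := hCN T U B hrec.toFinset (fun r => Y.b r.1.1) (fun r => Y.b r.1.2)
    (fun r h => Y.lift T N r h) ?_ ?_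
  · obtain ⟨k, hk⟩ : ∃ k : Bool × Fin n → ℕ, k = fun i =>
        ∑ u ∈ U, ((B u).filter fun p => (T.par p.1, p.2) = i).card := ⟨_, rfl⟩
    have hcn' : ∑ i : Bool × Fin n, k i * (k i - 1) ≤ hrec.toFinset.card := by
      rw [hk]
      exact hcn
    obtain ⟨s, hs⟩ : ∃ s : Finset (Bool × Fin n), s = univ ×ˢ inner n := ⟨_, rfl⟩
    have hsc : s.card = 2 * n - 4 := by
      rw [hs, Finset.card_product, card_inner, Finset.card_univ, Fintype.card_bool]
      omega
    have hsum : ∑ i ∈ s, k i = ∑ u ∈ U, ((Y.legs u).card - 2) := by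
      rw [hk, Finset.sum_comm]
      refine Finset.sum_congr rfl fun u _ => ?_
      rw [← hBc u]
      symm
      refine Finset.card_eq_sum_card_fiberwise (f := fun p : T.V × Fin n => (T.par p.1, p.2)) ?_
      intro p hp
      rw [hs, Finset.coe_product]
      exact ⟨Finset.mem_coe.2 (Finset.mem_univ _), mids_inner T E _ ((hB u p).1 hp)⟩
    have hcv := hCVX s (2 * n - 4) k hsc (by omega)
    rw [hsum] at hcv
    refine hcv.trans ((Finset.sum_le_sum_of_subset (Finset.subset_univ s)).trans (hcn'.trans ?_))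
    rw [Set.ncard_eq_toFinset_card _ hrec]
  · intro r _ h h' h1 h2
    exact hDKU T h.h h'.h h.hr h'.hr _ (h1.symm.trans h2)
  · intro u _ v _ h hne
    have h1 := hKC T Y N κ M hn hM1 hN hrec hκ hG u v h hne
    have e1 : {p | p ∈ B u ∧ ∃ q ∈ B v, h.h q.1 = p.1 ∧ q.2 = p.2} =
        {p | p ∈ Br T (fun e => Y.c T N e (κ e + M * N)) (Y.legs u) ∧
          ∃ q ∈ Br T (fun e => Y.c T N e (κ e + M * N)) (Y.legs v), h.h q.1 = p.1 ∧ q.2 = p.2} := by
      ext p
      constructor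
      · rintro ⟨h3, q, h4, h5⟩
        exact ⟨(hB u p).1 h3, q, (hB v q).1 h4, h5⟩
      · rintro ⟨h3, q, h4, h5⟩
        exact ⟨(hB u p).2 h3, q, (hB v q).2 h4, h5⟩
    have e2 : {r | r ∈ hrec.toFinset ∧ Y.b r.1.1 = u ∧ Y.b r.1.2 = v ∧ Y.lift T N r h.h} =
        {p | p ∈ Y.recs ∧ Y.b p.1.1 = u ∧ Y.b p.1.2 = v ∧ Y.lift T N p h.h} := by
      ext r
      constructor
      · rintro ⟨h3, h4⟩
        exact ⟨hrec.mem_toFinset.1 h3, h4⟩
      · rintro ⟨h3, h4⟩
        exact ⟨hrec.mem_toFinset.2 h3, h4⟩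
    rw [e1, e2]
    exact h1

end Pool.Agent.H79.BPQ
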