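import Pool.Agent.H55.BQ.Targets

/-!
# MP_bacf0e_co, row TRD (board bpq): the image of a drawing under a homeomorphism
-/

set_option autoImplicit false

namespace Pool.Agent.H79.BPQ

open Pool.Agent.H55.BP Pool.Agent.H55.BQ

theorem crossSet_image {V : Type} (G : SimpleGraph V) (arc : V → V → ℝ → ℂ) (f : ℂ ≃ₜ ℂ) :
    crossSet G (fun u v t => f (arc u v t)) =
      (fun x : Sym2 (Sym2 V) × ℂ => (x.1, f x.2)) '' crossSet G arc := by
  ext ⟨s, p⟩
  constructor
  · rintro ⟨a, b, c, d, hab, hcd, hne, h1, ⟨t, ht, ht'⟩, ⟨u, hu, hu'⟩⟩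
    have e1 : f (arc a b t) = p := ht'
    have e2 : f (arc c d u) = p := hu'
    have e3 : arc c d u = arc a b t := f.injective (e2.trans e1.symm)
    exact ⟨(s, arc a b t), ⟨a, b, c, d, hab, hcd, hne, h1, ⟨t, ht, rfl⟩, ⟨u, hu, e3⟩⟩,
      Prod.ext rfl e1⟩
  · rintro ⟨⟨s', p'⟩, ⟨a, b, c, d, hab, hcd, hne, h1, ⟨t, ht, ht'⟩, ⟨u, hu, hu'⟩⟩, he⟩
    have e1 : s' = s := congrArg Prod.fst he
    have e2 : f p' = p := congrArg Prod.snd he
    have e3 : arc a b t = p' := ht'
    have e4 : arc c d u = p' := hu'
    refine ⟨a, b, c, d, hab, hcd, hne, e1 ▸ h1, ⟨t, ht, ?_⟩, ⟨u, hu, ?_⟩⟩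
    · change f (arc a b t) = p
      rw [e3, e2]
    · change f (arc c d u) = p
      rw [e4, e2]

theorem pf_TRD : T_TRD := by
  intro V G D f
  have hinj : Function.Injective (fun x : Sym2 (Sym2 V) × ℂ => (x.1, f x.2)) := by
    rintro ⟨s, p⟩ ⟨s', p'⟩ h
    have e1 : s = s' := congrArg Prod.fst h
    have e2 : f p = f p' := congrArg Prod.snd h
    rw [e1, f.injective e2]
  refine ⟨{ pt := fun v => f (D.pt v)
            arc := fun u v t => f (D.arc u v t)
            pt_inj := f.injective.comp D.pt_inj
            cont := fun u v h => f.continuous.comp_continuousOn (D.cont u v h)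
            zero := fun u v h => by rw [D.zero u v h]
            one := fun u v h => by rw [D.one u v h]
            rev := fun u v h t ht => by rw [D.rev u v h t ht]
            inj := fun u v h => f.injective.comp_injOn (D.inj u v h)
            avoid := fun u v h t ht w he => D.avoid u v h t ht w (f.injective he)
            fin := by
              rw [crossSet_image]
              exact D.fin.image _ }, fun v => rfl, ?_⟩
  change (crossSet G fun u v t => f (D.arc u v t)).ncard = (crossSet G D.arc).ncard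
  rw [crossSet_image, Set.ncard_image_of_injective _ hinj]

end Pool.Agent.H79.BPQ
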